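import Pool.Agent.W932.RO.Fin
import Pool.Agent.W932.RO.Defs2
import Pool.Agent.W554.RO.LB
import Pool.Agent.W460.RO.SZ
import Pool.Agent.W290.RO.Core
import Pool.Agent.W125.RO.MEAS
import Pool.Agent.W883.RO.MACH
import Pool.Agent.W215.RO.Num
import Pool.Agent.W352.RO.POLY
import Pool.Agent.W723.RO.Lang
import Pool.Agent.W382.RO.POS
import Pool.Agent.W930.RO.INCL
import Pool.Agent.W597.RO.Mono

/-!
# The W-hierarchy relative to a random oracle

For almost every oracle `A` and every `t ≥ 1` there is a parameterized problem in the small class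
of the level `t + 1` (one question of `lg x` bits after `t + 1` blocks of guesses, only the first
one depending on the parameter) which is not in the big class of the level `t` (arbitrary advice
for the parameter, `t` blocks of `h (κ x) * lg x` guesses, polynomial time and `h (κ x) * lg x`
questions after the guesses). Every relativized definition of `W[t]` (and of `A[t]`) between the
two gives a strict hierarchy.
-/

set_option autoImplicit false

namespace Pool.Agent.Results.MP_5f6b2a_lc.RandomOracle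

open MeasureTheory Pool.Agent.H620R2.Gauge Pool.Agent.W911.AL Pool.Agent.W932.RO

theorem main : ∀ᵐ A ∂fair, ∀ t : ℕ, 1 ≤ t →
    Small A (t + 1) kap (lang t A) ∧ ¬ Big A t kap (lang t A) := by
  have h1 := Pool.Agent.W932.RO.final Pool.Agent.W554.RO.main Pool.Agent.W460.RO.main
    Pool.Agent.W290.RO.main Pool.Agent.W125.RO.main1 Pool.Agent.W125.RO.main2
    Pool.Agent.W883.RO.main1 Pool.Agent.W883.RO.main2 Pool.Agent.W883.RO.main3
    Pool.Agent.W215.RO.main Pool.Agent.W723.RO.main1 Pool.Agent.W723.RO.main2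
    Pool.Agent.W382.RO.POS.main
  filter_upwards [h1] with A hA t ht
  obtain ⟨s, rfl⟩ : ∃ s, t = s + 1 := ⟨t - 1, by omega⟩
  exact ⟨Pool.Agent.W352.RO.POLY.main.2 (s + 1) A, hA s⟩

theorem result :
    (∀ᵐ A ∂fair, ∀ t : ℕ, 1 ≤ t → ∃ Q : Set (List Bool),
      Small A (t + 1) kap Q ∧ ¬ Big A t kap Q) ∧
    (∀ᵐ A ∂fair, ∀ W : ℕ → Set ((List Bool → ℕ) × Set (List Bool)),
      (∀ t, 1 ≤ t → ∀ κ Q, PolyNat κ →
        (Small A t κ Q → (κ, Q) ∈ W t) ∧ ((κ, Q) ∈ W t → Big A t κ Q)) →
      ∀ t, 1 ≤ t → ¬ W (t + 1) ⊆ W t) ∧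
    PolyNat kap ∧
    (∀ (A : Oracle) (t : ℕ) (κ : List Bool → ℕ) (Q : Set (List Bool)), PolyNat κ →
      (Small A t κ Q → Big A t κ Q) ∧ (Big A t κ Q → Big A (t + 1) κ Q)) := by
  refine ⟨?_, ?_, Pool.Agent.W352.RO.POLY.main.1, fun A t κ Q hκ =>
    ⟨Pool.Agent.W930.RO.main A t κ Q hκ, Pool.Agent.W597.RO.main A t κ Q⟩⟩
  · filter_upwards [main] with A hA t ht
    exact ⟨_, hA t ht⟩
  · filter_upwards [main] with A hA W hW t ht hsub
    have hk := Pool.Agent.W352.RO.POLY.main.1
    have h1 := (hW (t + 1) (by omega) kap (lang t A) hk).1 (hA t ht).1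
    exact (hA t ht).2 ((hW t ht kap (lang t A) hk).2 (hsub h1))

end Pool.Agent.Results.MP_5f6b2a_lc.RandomOracle
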